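import Mathlib

set_option autoImplicit false

/-!
# First-Fit and chordal graphs: definitions and general facts
-/

namespace H37Z.FF

variable {V : Type}

/-- Every cycle `f 0, f 1, …, f (n - 1)` of length `n ≥ 4` has a chord: an edge that joins two
non-consecutive vertices of the cycle. -/
def IsChordal (G : SimpleGraph V) : Prop :=
  ∀ n : ℕ, 4 ≤ n → ∀ f : ZMod n → V, Function.Injective f → (∀ i, G.Adj (f i) (f (i + 1))) →
    ∃ i j : ZMod n, j ≠ i ∧ j ≠ i + 1 ∧ i ≠ j + 1 ∧ G.Adj (f i) (f j)

/-- `c` is the First-Fit colouring of `G` when the vertices are presented in the order of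
increasing `r`: the vertex `v` gets the least positive integer that is not the colour of a
neighbour presented before `v`. -/
def IsFirstFit (G : SimpleGraph V) (r : V → ℕ) (c : V → ℕ) : Prop :=
  ∀ v, IsLeast {k | 1 ≤ k ∧ ∀ u, G.Adj u v → r u < r v → c u ≠ k} (c v)

/-- The First-Fit chromatic number: the largest number of colours used by First-Fit, over all
orderings of the vertices. -/
noncomputable def chiFF (G : SimpleGraph V) : ℕ :=
  sSup {t | ∃ r c : V → ℕ, Function.Injective r ∧ IsFirstFit G r c ∧ (Set.range c).ncard = t}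

lemma bddAbove_ff [Finite V] (G : SimpleGraph V) :
    BddAbove {t | ∃ r c : V → ℕ, Function.Injective r ∧ IsFirstFit G r c ∧
      (Set.range c).ncard = t} := by
  refine ⟨Nat.card V, ?_⟩
  rintro t ⟨r, c, -, -, rfl⟩
  have h : (Set.range c).ncard ≤ (Set.univ : Set V).ncard := by
    rw [← Set.image_univ]
    exact Set.ncard_image_le (Set.toFinite _)
  rw [Set.ncard_univ] at h
  exact h

/-- a wall gives a lower bound -/
theorem le_chiFF [Finite V] (G : SimpleGraph V) (c : V → ℕ) (t : ℕ) (h1 : ∀ v, 1 ≤ c v)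
    (h2 : ∀ u v, G.Adj u v → c u ≠ c v)
    (h3 : ∀ v j, 1 ≤ j → j < c v → ∃ u, G.Adj u v ∧ c u = j)
    (h4 : ∀ j, 1 ≤ j → j ≤ t → ∃ v, c v = j) : t ≤ chiFF G := by
  classical
  have : Fintype V := Fintype.ofFinite V
  let e : V ≃ Fin (Fintype.card V) := Fintype.equivFin V
  let N := Fintype.card V
  let r : V → ℕ := fun v => c v * N + (e v).val
  have hlt : ∀ v, (e v).val < N := fun v => (e v).2
  have hr : Function.Injective r := by
    intro u v huv
    have h5 : (c u * N + (e u).val) % N = (c v * N + (e v).val) % N := congrArg (· % N) huv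
    rw [Nat.mul_add_mod', Nat.mul_add_mod', Nat.mod_eq_of_lt (hlt u), Nat.mod_eq_of_lt (hlt v)] at h5
    exact e.injective (Fin.ext h5)
  have hmono : ∀ u v, c u < c v → r u < r v := by
    intro u v h
    show c u * N + (e u).val < c v * N + (e v).val
    have h5 := hlt u
    have h6 : (c u + 1) * N ≤ c v * N := Nat.mul_le_mul_right _ h
    rw [Nat.add_mul, one_mul] at h6
    omega
  have hff : IsFirstFit G r c := by
    intro v
    refine ⟨⟨h1 v, fun u hu _ => h2 u v hu⟩, ?_⟩
    rintro k ⟨hk1, hk2⟩
    by_contra hcon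
    push Not at hcon
    obtain ⟨u, hu, hc⟩ := h3 v k hk1 hcon
    exact hk2 u hu (hmono u v (by omega)) hc
  have h5 : (Set.range c).ncard ≤ chiFF G := le_csSup (bddAbove_ff G) ⟨r, c, hr, hff, rfl⟩
  refine le_trans ?_ h5
  have h6 : (↑(Finset.Icc 1 t) : Set ℕ) ⊆ Set.range c := by
    intro j hj
    rw [Finset.mem_coe, Finset.mem_Icc] at hj
    exact h4 j hj.1 hj.2
  have h7 := Set.ncard_le_ncard h6 (Set.toFinite _)
  rw [Set.ncard_coe_finset, Nat.card_Icc] at h7
  omega

/-- with a rank for which the neighbours of rank at most the rank of `v` form a clique, the graph is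
chordal -/
theorem chordal_of_rank (G : SimpleGraph V) (r : V → ℕ)
    (h : ∀ v u w, G.Adj v u → G.Adj v w → r u ≤ r v → r w ≤ r v → u ≠ w → G.Adj u w) :
    IsChordal G := by
  intro n hn f hf hadj
  have : NeZero n := ⟨by omega⟩
  obtain ⟨i, hi⟩ := Finite.exists_max (fun i : ZMod n => r (f i))
  have hnum : ∀ a : ℕ, 0 < a → a < n → ((a : ℕ) : ZMod n) ≠ 0 := by
    intro a h0 h1 h2
    rw [ZMod.natCast_eq_zero_iff] at h2
    have := Nat.le_of_dvd h0 h2
    omega
  have e1 : (1 : ZMod n) ≠ 0 := by
    have := hnum 1 (by omega) (by omega)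
    simpa using this
  have e2 : (2 : ZMod n) ≠ 0 := by
    have := hnum 2 (by omega) (by omega)
    simpa using this
  have e3 : (3 : ZMod n) ≠ 0 := by
    have := hnum 3 (by omega) (by omega)
    simpa using this
  have a1 : G.Adj (f i) (f (i + 1)) := hadj i
  have a2 : G.Adj (f i) (f (i - 1)) := by
    have := hadj (i - 1)
    rw [sub_add_cancel] at this
    exact this.symm
  refine ⟨i + 1, i - 1, ?_, ?_, ?_, ?_⟩
  · intro hh
    apply e2
    linear_combination -hh
  · intro hh
    apply e3
    linear_combination -hh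
  · intro hh
    apply e1
    linear_combination hh
  · apply h (f i) _ _ a1 a2 (hi _) (hi _)
    intro hh
    apply e2
    have := hf hh
    linear_combination this

end H37Z.FF
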