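import Pool.Agent.H37Z.FF.Defs

set_option autoImplicit false

/-!
# Blow-ups of binomial trees
-/

namespace H37Z.FF

open Finset

/-- `S'` is a child of `S` in the binomial tree -/
def Ch {m : ℕ} (S S' : Finset (Fin m)) : Prop := ∃ i, (∀ j ∈ S, i < j) ∧ S' = insert i S

lemma Ch.card {m : ℕ} {S S' : Finset (Fin m)} (h : Ch S S') : S'.card = S.card + 1 := by
  obtain ⟨i, h1, rfl⟩ := h
  rw [card_insert_of_notMem]
  intro h2
  exact lt_irrefl _ (h1 i h2)

lemma Ch.unique {m : ℕ} {S T S' : Finset (Fin m)} (h : Ch S S') (h' : Ch T S') : S = T := by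
  obtain ⟨i, h1, rfl⟩ := h
  obtain ⟨j, h2, h3⟩ := h'
  have hij : i = j := by
    have a1 : i ∈ insert j T := by rw [← h3]; exact mem_insert_self i S
    have a2 : j ∈ insert i S := by rw [h3]; exact mem_insert_self j T
    rcases mem_insert.1 a1 with a | a
    · exact a
    · rcases mem_insert.1 a2 with b | b
      · exact b.symm
      · exact absurd (h1 j b) (not_lt.2 (h2 i a).le)
  subst hij
  have n1 : i ∉ S := fun h => lt_irrefl _ (h1 i h)
  have n2 : i ∉ T := fun h => lt_irrefl _ (h2 i h)
  rw [← erase_insert n1, h3, erase_insert n2]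

/-- the level of a vertex: the number of its children -/
noncomputable def lev {m : ℕ} (S : Finset (Fin m)) : ℕ :=
  ((univ : Finset (Fin m)).filter fun i => ∀ j ∈ S, i < j).card

lemma lev_empty {m : ℕ} : lev (∅ : Finset (Fin m)) = m := by
  unfold lev
  simp

lemma lev_insert {m : ℕ} {S : Finset (Fin m)} {i : Fin m} (h : ∀ j ∈ S, i < j) :
    lev (insert i S) = i.val := by
  unfold lev
  have : (univ : Finset (Fin m)).filter (fun i' => ∀ j ∈ insert i S, i' < j) = Finset.Iio i := by
    ext x
    simp only [mem_filter, mem_univ, true_and, mem_insert, forall_eq_or_imp, mem_Iio]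
    constructor
    · exact fun hx => hx.1
    · exact fun hx => ⟨hx, fun j hj => hx.trans (h j hj)⟩
  rw [this, Fin.card_Iio]

/-- every index below the level gives a child -/
lemma lt_of_lt_lev {m : ℕ} {S : Finset (Fin m)} {i : Fin m} (hi : i.val < lev S) :
    ∀ j ∈ S, i < j := by
  by_contra hcon
  push Not at hcon
  obtain ⟨j, hj, hji⟩ := hcon
  have h1 : lev S ≤ j.val := by
    unfold lev
    have : (univ : Finset (Fin m)).filter (fun i' => ∀ j ∈ S, i' < j) ⊆ Finset.Iio j := by
      intro x hx
      rw [mem_filter] at hx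
      rw [mem_Iio]
      exact hx.2 j hj
    have h2 := card_le_card this
    rw [Fin.card_Iio] at h2
    exact h2
  have h3 : j.val ≤ i.val := hji
  omega

lemma lev_le {m : ℕ} (S : Finset (Fin m)) : lev S ≤ m := by
  unfold lev
  refine (card_filter_le _ _).trans ?_
  simp

lemma Ch.lev_lt {m : ℕ} {S S' : Finset (Fin m)} (h : Ch S S') : lev S' < lev S := by
  obtain ⟨i, h1, rfl⟩ := h
  rw [lev_insert h1]
  unfold lev
  have : insert i (Finset.Iio i) ⊆ (univ : Finset (Fin m)).filter (fun i' => ∀ j ∈ S, i' < j) := by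
    intro x hx
    rw [mem_filter]
    refine ⟨mem_univ _, fun j hj => ?_⟩
    rcases mem_insert.1 hx with rfl | hx
    · exact h1 j hj
    · exact (mem_Iio.1 hx).trans (h1 j hj)
  have h2 := card_le_card this
  rw [card_insert_of_notMem (by simp), Fin.card_Iio] at h2
  omega

/-- The vertices: the blow-up of the binomial tree, a clique and isolated vertices. -/
abbrev Vx (m s k q : ℕ) : Type := (Finset (Fin m) × Fin s) ⊕ (Fin k ⊕ Fin q)

/-- adjacency -/
def adj (m s k q : ℕ) : Vx m s k q → Vx m s k q → Prop
  | Sum.inl x, Sum.inl y => (x.1 = y.1 ∧ x.2 ≠ y.2) ∨ Ch x.1 y.1 ∨ Ch y.1 x.1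
  | Sum.inr (Sum.inl a), Sum.inr (Sum.inl b) => a ≠ b
  | _, _ => False

/-- the graph -/
def Gr (m s k q : ℕ) : SimpleGraph (Vx m s k q) where
  Adj := adj m s k q
  symm := ⟨by
    rintro (x | x | x) (y | y | y) h
    · rcases h with h | h | h
      · exact Or.inl ⟨h.1.symm, h.2.symm⟩
      · exact Or.inr (Or.inr h)
      · exact Or.inr (Or.inl h)
    · exact h
    · exact h
    · exact h
    · exact Ne.symm h
    · exact h
    · exact h
    · exact h
    · exact h⟩
  loopless := ⟨by
    rintro (x | x | x) h
    · rcases h with h | h | h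
      · exact h.2 rfl
      · have := h.card; omega
      · have := h.card; omega
    · exact h rfl
    · exact h⟩

/-- the rank -/
def rk (m s k q : ℕ) : Vx m s k q → ℕ
  | Sum.inl x => x.1.card
  | Sum.inr _ => 0

lemma adj_inl {m s k q : ℕ} (x y : Finset (Fin m) × Fin s) :
    (Gr m s k q).Adj (Sum.inl x) (Sum.inl y) ↔
      (x.1 = y.1 ∧ x.2 ≠ y.2) ∨ Ch x.1 y.1 ∨ Ch y.1 x.1 := Iff.rfl

lemma adj_inr {m s k q : ℕ} (a b : Fin k) :
    (Gr m s k q).Adj (Sum.inr (Sum.inl a)) (Sum.inr (Sum.inl b)) ↔ a ≠ b := Iff.rfl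

theorem chordal (m s k q : ℕ) : IsChordal (Gr m s k q) := by
  apply chordal_of_rank _ (rk m s k q)
  rintro (v | v | v) (u | u | u) (w | w | w) h1 h2 h3 h4 h5 <;> try exact h1.elim
  · rw [adj_inl] at *
    have h3' : u.1.card ≤ v.1.card := h3
    have h4' : w.1.card ≤ v.1.card := h4
    have h5' : u ≠ w := fun h => h5 (congrArg _ h)
    have hu : v.1 = u.1 ∨ Ch u.1 v.1 := by
      rcases h1 with h | h | h
      · exact Or.inl h.1
      · have := h.card; omega
      · exact Or.inr h
    have hw : v.1 = w.1 ∨ Ch w.1 v.1 := by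
      rcases h2 with h | h | h
      · exact Or.inl h.1
      · have := h.card; omega
      · exact Or.inr h
    have key : u.1 = w.1 → u.2 ≠ w.2 := fun h h' => h5' (Prod.ext h h')
    rcases hu with hu | hu <;> rcases hw with hw | hw
    · have : u.1 = w.1 := hu.symm.trans hw
      exact Or.inl ⟨this, key this⟩
    · right; right; rw [← hu]; exact hw
    · right; left; rw [← hw]; exact hu
    · have : u.1 = w.1 := hu.unique hw
      exact Or.inl ⟨this, key this⟩
  · exact h2.elim
  · exact h2.elim
  · exact h2.elim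
  · exact fun h => h5 (by rw [h])
  · exact h2.elim

lemma card_Vx (m s k q : ℕ) : Fintype.card (Vx m s k q) = s * 2 ^ m + k + q := by
  rw [Fintype.card_sum, Fintype.card_sum, Fintype.card_prod, Fintype.card_finset, Fintype.card_fin,
    Fintype.card_fin, Fintype.card_fin, Fintype.card_fin]
  ring

/-- three pairwise adjacent vertices of the tree do not exist -/
lemma two_values {m s k q : ℕ} (C : Finset (Finset (Fin m) × Fin s))
    (hC : ∀ x ∈ C, ∀ y ∈ C, x ≠ y → (Gr m s k q).Adj (Sum.inl x) (Sum.inl y)) :
    (C.image Prod.fst).card ≤ 2 := by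
  by_contra hcon
  push Not at hcon
  obtain ⟨A, hA, B, hB, D, hD, hAB, hAD, hBD⟩ := Finset.two_lt_card.1 hcon
  obtain ⟨a, ha, rfl⟩ := mem_image.1 hA
  obtain ⟨b, hb, rfl⟩ := mem_image.1 hB
  obtain ⟨d, hd, rfl⟩ := mem_image.1 hD
  have h1 := hC a ha b hb (fun h => hAB (by rw [h]))
  have h2 := hC a ha d hd (fun h => hAD (by rw [h]))
  have h3 := hC b hb d hd (fun h => hBD (by rw [h]))
  rw [adj_inl] at h1 h2 h3
  rcases h1 with h1 | h1 | h1
  · exact hAB h1.1
  · have c1 := h1.card
    rcases h2 with h2 | h2 | h2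
    · exact hAD h2.1
    · have c2 := h2.card
      rcases h3 with h3 | h3 | h3
      · exact hBD h3.1
      · have := h3.card; omega
      · have := h3.card; omega
    · have c2 := h2.card
      rcases h3 with h3 | h3 | h3
      · exact hBD h3.1
      · have := h3.card; omega
      · have := h3.card; omega
  · have c1 := h1.card
    rcases h2 with h2 | h2 | h2
    · exact hAD h2.1
    · have c2 := h2.card
      rcases h3 with h3 | h3 | h3
      · exact hBD h3.1
      · have := h3.card; omega
      · have := h3.card; omega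
    · exact hBD (h1.unique h2)

theorem clique_le {m s k q : ℕ} (hsk : 2 * s ≤ k) (hk : 1 ≤ k) (C : Finset (Vx m s k q))
    (hC : (Gr m s k q).IsClique (C : Set (Vx m s k q))) : C.card ≤ k := by
  classical
  -- the parts of the clique
  rcases C.eq_empty_or_nonempty with rfl | ⟨v, hv⟩
  · simp
  rcases v with v | v | v
  · -- inside the blow-up
    let C' : Finset (Finset (Fin m) × Fin s) := univ.filter fun x => Sum.inl x ∈ C
    have h1 : C = C'.map Function.Embedding.inl := by
      ext u
      simp only [mem_map, Function.Embedding.inl_apply, C', mem_filter, mem_univ, true_and]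
      constructor
      · intro hu
        rcases u with u | u | u
        · exact ⟨u, hu, rfl⟩
        · exact (hC hv hu (by simp)).elim
        · exact (hC hv hu (by simp)).elim
      · rintro ⟨x, hx, rfl⟩; exact hx
    rw [h1, card_map]
    have h2 := two_values (k := k) (q := q) C' (by
      intro x hx y hy hxy
      simp only [C', mem_filter, mem_univ, true_and] at hx hy
      exact hC hx hy (fun h => hxy (Sum.inl_injective h)))
    have h3 : C'.card ≤ (C'.image Prod.fst ×ˢ (univ : Finset (Fin s))).card := by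
      apply card_le_card
      intro x hx
      rw [mem_product]
      exact ⟨mem_image_of_mem _ hx, mem_univ _⟩
    rw [card_product, card_univ, Fintype.card_fin] at h3
    calc C'.card ≤ (C'.image Prod.fst).card * s := h3
      _ ≤ 2 * s := Nat.mul_le_mul_right _ h2
      _ ≤ k := hsk
  · -- inside the clique
    have h1 : C ⊆ (univ : Finset (Fin k)).map
        ⟨fun a => Sum.inr (Sum.inl a), fun a b h => by simpa using h⟩ := by
      intro u hu
      rcases u with u | u | u
      · exact (hC hv hu (by simp)).elim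
      · simp
      · exact (hC hv hu (by simp)).elim
    have h2 := card_le_card h1
    rw [card_map, card_univ, Fintype.card_fin] at h2
    exact h2
  · have h1 : C ⊆ {Sum.inr (Sum.inr v)} := by
      intro u hu
      rw [mem_singleton]
      by_contra hne
      rcases u with u | u | u
      · exact (hC hv hu (Ne.symm hne)).elim
      · exact (hC hv hu (Ne.symm hne)).elim
      · exact (hC hv hu (Ne.symm hne)).elim
    have h2 := card_le_card h1
    rw [card_singleton] at h2
    omega

theorem cliqueNum_eq {m s k q : ℕ} (hsk : 2 * s ≤ k) (hk : 1 ≤ k) :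
    (Gr m s k q).cliqueNum = k := by
  apply le_antisymm
  · obtain ⟨C, hC⟩ := (Gr m s k q).exists_isNClique_cliqueNum
    rw [← hC.card_eq]
    exact clique_le hsk hk C hC.isClique
  · let C : Finset (Vx m s k q) := (univ : Finset (Fin k)).map
        ⟨fun a => Sum.inr (Sum.inl a), fun a b h => by simpa using h⟩
    have hC : (Gr m s k q).IsClique (C : Set (Vx m s k q)) := by
      intro u hu v hv huv
      simp only [C, coe_map, Set.mem_image] at hu hv
      obtain ⟨a, -, rfl⟩ := hu
      obtain ⟨b, -, rfl⟩ := hv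
      exact fun h => huv (by rw [h])
    have := hC.card_le_cliqueNum
    simpa [C] using this

/-- the colouring -/
noncomputable def col (m s k q : ℕ) : Vx m s k q → ℕ
  | Sum.inl x => lev x.1 * s + x.2.val + 1
  | Sum.inr (Sum.inl a) => a.val + 1
  | Sum.inr (Sum.inr _) => 1

lemma col_one (m s k q : ℕ) (v : Vx m s k q) : 1 ≤ col m s k q v := by
  rcases v with v | v | v <;> simp [col]

lemma col_proper {m s k q : ℕ} (u v : Vx m s k q) (h : (Gr m s k q).Adj u v) :
    col m s k q u ≠ col m s k q v := by
  have key : ∀ x y : Finset (Fin m) × Fin s, lev x.1 < lev y.1 →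
      lev x.1 * s + x.2.val + 1 < lev y.1 * s + y.2.val + 1 := by
    intro x y hxy
    have h1 := x.2.2
    have h2 : (lev x.1 + 1) * s ≤ lev y.1 * s := Nat.mul_le_mul_right _ hxy
    rw [Nat.add_mul, one_mul] at h2
    omega
  rcases u with u | u | u <;> rcases v with v | v | v <;> try exact h.elim
  · rw [adj_inl] at h
    show lev u.1 * s + u.2.val + 1 ≠ lev v.1 * s + v.2.val + 1
    rcases h with h | h | h
    · rw [h.1]
      intro h'
      exact h.2 (Fin.ext (by omega))
    · exact (key v u h.lev_lt).ne'
    · exact (key u v h.lev_lt).ne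
  · rw [adj_inr] at h
    show u.val + 1 ≠ v.val + 1
    intro h'
    exact h (Fin.ext (by omega))

lemma col_wall {m s k q : ℕ} (v : Vx m s k q) (j : ℕ) (h1 : 1 ≤ j) (h2 : j < col m s k q v) :
    ∃ u, (Gr m s k q).Adj u v ∧ col m s k q u = j := by
  rcases v with v | v | v
  · have h2' : j < lev v.1 * s + v.2.val + 1 := h2
    have hs : 0 < s := lt_of_le_of_lt (Nat.zero_le _) v.2.2
    by_cases hj : lev v.1 * s < j
    · -- same place in the tree
      have hlt : j - 1 - lev v.1 * s < s := by have := v.2.2; omega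
      refine ⟨Sum.inl (v.1, ⟨j - 1 - lev v.1 * s, hlt⟩), ?_, ?_⟩
      · rw [adj_inl]
        left
        refine ⟨rfl, ?_⟩
        intro h
        have := congrArg Fin.val h
        simp only at this
        omega
      · show lev v.1 * s + (j - 1 - lev v.1 * s) + 1 = j
        omega
    · -- a child
      push Not at hj
      set i := (j - 1) / s with hi
      have hdm : s * i + (j - 1) % s = j - 1 := Nat.div_add_mod (j - 1) s
      have hmod : (j - 1) % s < s := Nat.mod_lt _ hs
      have hilt : i < lev v.1 := by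
        rw [hi]
        apply Nat.div_lt_of_lt_mul
        rw [mul_comm]
        omega
      have him : i < m := lt_of_lt_of_le hilt (lev_le _)
      have hch := lt_of_lt_lev (S := v.1) (i := ⟨i, him⟩) hilt
      refine ⟨Sum.inl (insert ⟨i, him⟩ v.1, ⟨(j - 1) % s, hmod⟩), ?_, ?_⟩
      · rw [adj_inl]
        right; right
        exact ⟨⟨i, him⟩, hch, rfl⟩
      · show lev (insert ⟨i, him⟩ v.1) * s + (j - 1) % s + 1 = j
        rw [lev_insert hch]
        show i * s + (j - 1) % s + 1 = j
        rw [mul_comm]
        omega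
  · have h2' : j < v.val + 1 := h2
    refine ⟨Sum.inr (Sum.inl ⟨j - 1, by have := v.2; omega⟩), ?_, ?_⟩
    · rw [adj_inr]
      intro h
      have := congrArg Fin.val h
      simp only at this
      omega
    · show j - 1 + 1 = j
      omega
  · have h2' : j < 1 := h2
    omega

theorem chiFF_tree {m s k q : ℕ} : (m + 1) * s ≤ chiFF (Gr m s k q) := by
  apply le_chiFF (Gr m s k q) (col m s k q) _ (col_one m s k q) col_proper col_wall
  intro j h1 h2
  have hs : 0 < s := by
    rcases Nat.eq_zero_or_pos s with h | h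
    · rw [h] at h2; omega
    · exact h
  let top : Vx m s k q := Sum.inl (∅, ⟨s - 1, by omega⟩)
  have htop : col m s k q top = (m + 1) * s := by
    show lev (∅ : Finset (Fin m)) * s + (s - 1) + 1 = (m + 1) * s
    rw [lev_empty, Nat.add_mul]
    omega
  rcases Nat.lt_or_ge j ((m + 1) * s) with h | h
  · obtain ⟨u, -, hu⟩ := col_wall top j h1 (by rw [htop]; exact h)
    exact ⟨u, hu⟩
  · exact ⟨top, by rw [htop]; omega⟩

theorem chiFF_clique {m s k q : ℕ} : k ≤ chiFF (Gr m s k q) := by
  apply le_chiFF (Gr m s k q) (col m s k q) _ (col_one m s k q) col_proper col_wall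
  intro j h1 h2
  exact ⟨Sum.inr (Sum.inl ⟨j - 1, by omega⟩), by show j - 1 + 1 = j; omega⟩

end H37Z.FF
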